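import Pool.Agent.helper74.MQ.Spec

/-!
# mq:KRE: the transports are almost isometries
-/

set_option autoImplicit false

open Complex Metric Set Filter Topology MeasureTheory MPS

noncomputable section

namespace MQ

theorem KRE_norm_exp {z w : ℂ} (h : Complex.exp z = w) : Real.log ‖w‖ = z.re := by
  rw [← h, Complex.norm_exp, Real.log_exp]

/-- the upper bound -/
theorem KRE_upper (hI : INC2_stmt) (hS : SHF_stmt) (hT : TR_stmt) (n k : ℕ) [NeZero k] (c : ℂ)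
    (b g : ZMod k → ℂ) (ψ : ZMod k → ℂ → ℂ) (R ε δ R₀ ε₁ : ℝ)
    (hP : ∀ (k : ℕ) [NeZero k] (c : ℂ) (b g : ZMod k → ℂ) (ψ : ZMod k → ℂ → ℂ) (R ε : ℝ),
      SU n k c b g ψ R ε → R₀ ≤ R → ε ≤ ε₁ →
      ∃ G : ℕ → ℂ → ℂ, ∀ Q ≤ k, H1 n k c b g ψ R ε δ (fun _ => 3 * δ) G Q)
    (hsu : SU n k c b g ψ R ε) (hR : R₀ ≤ R) (hε1 : ε ≤ ε₁) (hε2 : ε ≤ δ ^ 2 / 1024)
    (i : ZMod k) (q : ℕ) (hq1 : 1 ≤ q) (hqk : q ≤ k) :
    Real.log ‖Kq n b ψ i q‖ ≤ 3 * δ + δ / 2 := by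
  have hsu' := (hT n k c b g ψ R ε i hsu).1
  obtain ⟨G, hG⟩ := hP k c _ _ _ R ε hsu' hR hε1
  obtain ⟨Φ, κ, -, -, -, hκ, hre⟩ := hI n k c _ _ _ R ε δ _ G q (hG q hqk) hq1 hε2
  have hK := (hS n k c b g ψ i).2.2.1 0 q
  rw [hK, add_zero] at hκ
  rw [KRE_norm_exp hκ]
  exact hre

theorem KRE (hP : P1W_stmt) (hI : INC2_stmt) (hC : COC_stmt) (hS : SHF_stmt) (hT : TR_stmt) :
    KRE_stmt := by
  intro n δ hn hδ hδ1
  obtain ⟨R₀, hR₀, ε₁, hε₁, hP'⟩ := hP n δ hn hδ hδ1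
  refine ⟨R₀, hR₀, min ε₁ (δ ^ 2 / 1024), lt_min hε₁ (by positivity), ?_⟩
  intro k _ c b g ψ R ε hsu hR hε i q hq1 hqk
  have he1 : ε ≤ ε₁ := hε.trans (min_le_left _ _)
  have he2 : ε ≤ δ ^ 2 / 1024 := hε.trans (min_le_right _ _)
  have hup : ∀ (i : ZMod k) (q : ℕ), 1 ≤ q → q ≤ k → Real.log ‖Kq n b ψ i q‖ ≤ 3 * δ + δ / 2 :=
    fun i q h1 h2 => KRE_upper hI hS hT n k c b g ψ R ε δ R₀ ε₁ (fun k _ c b g ψ R ε =>
      hP' k c b g ψ R ε) hsu hR he1 he2 i q h1 h2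
  have hC' := fun i => hC n k b ψ hn hsu.cyc.ne0 (fun i => (hsu.mx i).pn.der) i
  have hne : Kq n b ψ i q ≠ 0 := (hC' i).1 q
  have hrho : Real.log ‖rho n b‖ ≤ δ := by
    have h1 := hsu.hE
    have h2 : 0 ≤ ∫ z in ball (0 : ℂ) R, ‖er n c b g z‖ :=
      integral_nonneg fun z => norm_nonneg _
    have h3 : 0 ≤ Real.log ‖rho n b‖ := Real.log_nonneg hsu.rho1.le
    have h4 : (3 : ℝ) < Real.pi := Real.pi_gt_three
    have h5 : Real.log ‖rho n b‖ ≤ 2 * Real.pi * Real.log ‖rho n b‖ := by nlinarith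
    have h6 : δ ^ 2 / 1024 ≤ δ := by nlinarith
    linarith
  have hrho0 : 0 ≤ Real.log ‖rho n b‖ := Real.log_nonneg hsu.rho1.le
  have hmul := (hC' i).2.2.2 q (k - q)
  have hk : q + (k - q) = k := by omega
  rw [hk, (hC' i).2.2.1] at hmul
  have hne2 : Kq n b ψ (i - (q : ZMod k)) (k - q) ≠ 0 := (hC' _).1 _
  have hlog : -Real.log ‖rho n b‖ = Real.log ‖Kq n b ψ i q‖ +
      Real.log ‖Kq n b ψ (i - (q : ZMod k)) (k - q)‖ := by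
    rw [← Real.log_mul (norm_ne_zero_iff.mpr hne) (norm_ne_zero_iff.mpr hne2), ← norm_mul, ← hmul,
      norm_inv, Real.log_inv]
  have hlow : Real.log ‖Kq n b ψ (i - (q : ZMod k)) (k - q)‖ ≤ 3 * δ + δ / 2 := by
    rcases Nat.eq_zero_or_pos (k - q) with h0 | h0
    · rw [h0, (hC' _).2.1, norm_one, Real.log_one]
      positivity
    · exact hup _ _ h0 (Nat.sub_le _ _)
  rw [abs_le]
  constructor
  · linarith
  · have := hup i q hq1 hqk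
    linarith

end MQ
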