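import Pool.Agent.helper74.MQ.Spec

/-!
# mq:DLOC: the difference of two trajectory integrals is constant on connected sets
-/

set_option autoImplicit false

open Complex Metric Set Filter Topology MeasureTheory MPS

noncomputable section

namespace MQ

theorem DLOC_dist (lam : ℝ → ℂ) (a c p : ℂ) (hcont : Continuous lam)
    (ha : Tendsto lam atBot (𝓝 a)) (hc : Tendsto lam atTop (𝓝 c))
    (hpa : p ≠ a) (hpc : p ≠ c) (hp : ∀ t, lam t ≠ p) :
    ∃ d > (0 : ℝ), (∀ t, d ≤ ‖lam t - p‖) ∧ d ≤ ‖a - p‖ ∧ d ≤ ‖c - p‖ := by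
  have ha0 : 0 < ‖a - p‖ := norm_pos_iff.mpr (sub_ne_zero.mpr hpa.symm)
  have hc0 : 0 < ‖c - p‖ := norm_pos_iff.mpr (sub_ne_zero.mpr hpc.symm)
  have h1 : ∀ᶠ t in atBot, ‖a - p‖ / 2 < ‖lam t - p‖ :=
    (ha.sub_const p).norm.eventually_const_lt (half_lt_self ha0)
  have h2 : ∀ᶠ t in atTop, ‖c - p‖ / 2 < ‖lam t - p‖ :=
    (hc.sub_const p).norm.eventually_const_lt (half_lt_self hc0)
  obtain ⟨M1, hM1⟩ := eventually_atBot.mp h1
  obtain ⟨M2, hM2⟩ := eventually_atTop.mp h2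
  obtain ⟨t₀, -, ht₀⟩ := (isCompact_Icc (a := M1) (b := max M1 M2)).exists_isMinOn
    ⟨M1, le_refl _, le_max_left _ _⟩ (f := fun t => ‖lam t - p‖)
    ((hcont.sub continuous_const).norm.continuousOn)
  have h3 : 0 < ‖lam t₀ - p‖ := norm_pos_iff.mpr (sub_ne_zero.mpr (hp t₀))
  have hd : 0 < min (‖lam t₀ - p‖) (min (‖a - p‖ / 2) (‖c - p‖ / 2)) :=
    lt_min h3 (lt_min (half_pos ha0) (half_pos hc0))
  refine ⟨_, hd, fun t => ?_, ?_, ?_⟩
  · rcases le_total t M1 with h | h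
    · exact ((min_le_right _ _).trans (min_le_left _ _)).trans (hM1 t h).le
    · rcases le_total M2 t with h' | h'
      · exact ((min_le_right _ _).trans (min_le_right _ _)).trans (hM2 t h').le
      · exact (min_le_left _ _).trans (ht₀ ⟨h, h'.trans (le_max_right _ _)⟩)
  · exact ((min_le_right _ _).trans (min_le_left _ _)).trans (half_le_self ha0.le)
  · exact ((min_le_right _ _).trans (min_le_right _ _)).trans (half_le_self hc0.le)

theorem DLOC_int (lam lam' : ℝ → ℂ) (p : ℂ) (d : ℝ) (hd : 0 < d) (hcont : Continuous lam)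
    (hi : Integrable lam') (h : ∀ t, d ≤ ‖lam t - p‖) :
    Integrable (fun t => lam' t / (lam t - p)) := by
  have hne : ∀ t, lam t - p ≠ 0 := fun t => norm_pos_iff.mp (hd.trans_le (h t))
  have hc' : Continuous (fun t => (lam t - p)⁻¹) :=
    (hcont.sub continuous_const).inv₀ hne
  refine Integrable.mono' (hi.norm.mul_const d⁻¹) ?_ ?_
  · simp only [div_eq_mul_inv]
    exact hi.aestronglyMeasurable.mul hc'.aestronglyMeasurable
  · refine Eventually.of_forall fun t => ?_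
    rw [div_eq_mul_inv, norm_mul, norm_inv]
    exact mul_le_mul_of_nonneg_left (inv_anti₀ hd (h t)) (norm_nonneg _)

theorem DLOC_slit {z p p' : ℂ} {d : ℝ} (h : d ≤ ‖z - p‖) (hp : ‖p' - p‖ < d / 2) :
    (z - p) / (z - p') ∈ slitPlane ∧ d / 2 ≤ ‖z - p'‖ ∧ z - p ≠ 0 ∧ z - p' ≠ 0 := by
  have h1 : ‖z - p‖ ≤ ‖z - p'‖ + ‖p' - p‖ := by
    have := norm_add_le (z - p') (p' - p)
    simpa using this
  have h2 : d / 2 ≤ ‖z - p'‖ := by linarith
  have h0 : 0 < d / 2 := (norm_nonneg _).trans_lt hp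
  have h3 : 0 < ‖z - p'‖ := h0.trans_le h2
  have h3' : z - p' ≠ 0 := norm_pos_iff.mp h3
  have h4 : 0 < ‖z - p‖ := by linarith
  refine ⟨?_, h2, norm_pos_iff.mp h4, h3'⟩
  have h5 : (z - p) / (z - p') = 1 + (p' - p) / (z - p') := by
    field_simp
    ring
  rw [h5]
  refine mem_slitPlane_of_norm_lt_one ?_
  rw [norm_div, div_lt_one h3]
  linarith

theorem DLOC_loc (lam lam' : ℝ → ℂ) (a c p : ℂ) (hd : ∀ t, HasDerivAt lam (lam' t) t)
    (hi : Integrable lam') (ha : Tendsto lam atBot (𝓝 a)) (hc : Tendsto lam atTop (𝓝 c))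
    (hpa : p ≠ a) (hpc : p ≠ c) (hp : ∀ t, lam t ≠ p) :
    ∀ᶠ p' in 𝓝 p, (∫ t, lam' t / (lam t - p)) - (∫ t, lam' t / (lam t - p')) =
      Complex.log ((c - p) / (c - p')) - Complex.log ((a - p) / (a - p')) := by
  have hcont : Continuous lam := continuous_iff_continuousAt.mpr fun t => (hd t).continuousAt
  obtain ⟨d, hd0, hdt, hda, hdc⟩ := DLOC_dist lam a c p hcont ha hc hpa hpc hp
  filter_upwards [ball_mem_nhds p (half_pos hd0)] with p' hp'
  have hp'' : ‖p' - p‖ < d / 2 := mem_ball_iff_norm.mp hp'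
  have hs := fun t => DLOC_slit (hdt t) hp''
  have hI1 : Integrable (fun t => lam' t / (lam t - p)) := DLOC_int lam lam' p d hd0 hcont hi hdt
  have hI2 : Integrable (fun t => lam' t / (lam t - p')) :=
    DLOC_int lam lam' p' (d / 2) (half_pos hd0) hcont hi fun t => (hs t).2.1
  rw [← integral_sub hI1 hI2]
  refine integral_of_hasDerivAt_of_tendsto
    (f := fun t => Complex.log ((lam t - p) / (lam t - p'))) (fun t => ?_) (hI1.sub hI2) ?_ ?_
  · obtain ⟨h1, h2, h3, h4⟩ := hs t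
    have h5 := (((hd t).sub_const p).div ((hd t).sub_const p') h4).clog_real h1
    refine (h5.congr_deriv ?_)
    rw [Pi.div_apply]
    field_simp
  · have h1 := (DLOC_slit hda hp'').1
    exact ((ha.sub_const p).div (ha.sub_const p') (DLOC_slit hda hp'').2.2.2).clog h1
  · have h1 := (DLOC_slit hdc hp'').1
    exact ((hc.sub_const p).div (hc.sub_const p') (DLOC_slit hdc hp'').2.2.2).clog h1

theorem DLOC_hat (k : ℕ) [NeZero k] (b g : ZMod k → ℂ) (i : ZMod k) (ψ : ℂ → ℂ)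
    (hψ : PN b g i ψ 1) (w : ℂ) (hw : w.re < 0) :
    HasDerivAt (hat ψ) (deriv ψ (Complex.exp w) * Complex.exp w) w := by
  have h1 : Complex.exp w ∈ ball (0 : ℂ) 1 := by
    rw [mem_ball_zero_iff, Complex.norm_exp]
    rw [← Real.exp_zero]
    exact Real.exp_lt_exp.mpr hw
  have h2 : HasDerivAt ψ (deriv ψ (Complex.exp w)) (Complex.exp w) :=
    (hψ.diff.differentiableAt (isOpen_ball.mem_nhds h1)).hasDerivAt
  exact h2.comp w (Complex.hasDerivAt_exp w)

theorem DLOC_bd (k : ℕ) [NeZero k] (b g : ZMod k → ℂ) (i : ZMod k) (ψ : ℂ → ℂ)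
    (hψ : PN b g i ψ 1) : ∃ C : ℝ, ∃ M : ℝ, M < 0 ∧ ∀ w : ℂ, w.re < M →
      ‖deriv (hat ψ) w‖ ≤ C * Real.exp w.re := by
  have h1 : ContinuousAt (deriv ψ) 0 :=
    (hψ.diff.deriv isOpen_ball).continuousOn.continuousAt (ball_mem_nhds 0 one_pos)
  have h2 : ∀ᶠ u in 𝓝 (0 : ℂ), ‖deriv ψ u‖ < ‖deriv ψ 0‖ + 1 :=
    h1.norm.eventually_lt_const (by linarith)
  obtain ⟨r, hr, hr'⟩ := Metric.eventually_nhds_iff_ball.mp h2
  refine ⟨‖deriv ψ 0‖ + 1, min (Real.log r) (-1), (min_le_right _ _).trans_lt (by norm_num),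
    fun w hw => ?_⟩
  have h3 : w.re < 0 := hw.trans_le ((min_le_right _ _).trans (by norm_num))
  have h4 : Real.exp w.re < r := by
    rw [← Real.exp_log hr]
    exact Real.exp_lt_exp.mpr (hw.trans_le (min_le_left _ _))
  rw [(DLOC_hat k b g i ψ hψ w h3).deriv, norm_mul, Complex.norm_exp]
  refine mul_le_mul_of_nonneg_right (hr' _ ?_).le (Real.exp_pos _).le
  rwa [mem_ball_zero_iff, Complex.norm_exp]

theorem DLOC_lim (k : ℕ) [NeZero k] (b g : ZMod k → ℂ) (i : ZMod k) (ψ : ℂ → ℂ)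
    (hψ : PN b g i ψ 1) (F : Filter ℝ) (w : ℝ → ℂ) (hw : Tendsto (fun t => (w t).re) F atBot) :
    Tendsto (fun t => hat ψ (w t)) F (𝓝 (b i)) := by
  have h1 : ContinuousAt ψ 0 := hψ.diff.continuousOn.continuousAt (ball_mem_nhds 0 one_pos)
  have h2 : Tendsto (fun t => Complex.exp (w t)) F (𝓝 0) := by
    rw [tendsto_zero_iff_norm_tendsto_zero]
    simp only [Complex.norm_exp]
    exact Real.tendsto_exp_atBot.comp hw
  rw [← hψ.val]
  exact h1.tendsto.comp h2

/-- the facts on one trajectory -/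
theorem DLOC_traj (k : ℕ) [NeZero k] (b g : ZMod k → ℂ) (i l : ZMod k) (ψ ψ' : ℂ → ℂ) (S : ℂ)
    (y e : ℝ) (χ : ℂ → ℂ) (hψ : PN b g i ψ 1) (hψ' : PN b g l ψ' 1) (he : 0 < e)
    (h : IsStrip b g ψ ψ' S (y - e) (y + e) χ) :
    (∀ t : ℝ, HasDerivAt (fun t : ℝ => χ ((t : ℂ) + y * I)) (deriv χ ((t : ℂ) + y * I)) t) ∧
    Integrable (fun t : ℝ => deriv χ ((t : ℂ) + y * I)) ∧
    Tendsto (fun t : ℝ => χ ((t : ℂ) + y * I)) atBot (𝓝 (b i)) ∧
    Tendsto (fun t : ℝ => χ ((t : ℂ) + y * I)) atTop (𝓝 (b l)) := by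
  have hU : IsOpen {w : ℂ | y - e < w.im ∧ w.im < y + e} :=
    (isOpen_lt continuous_const Complex.continuous_im).inter
      (isOpen_lt Complex.continuous_im continuous_const)
  have him : ∀ t : ℝ, ((t : ℂ) + y * I).im = y := fun t => by simp
  have hre : ∀ t : ℝ, ((t : ℂ) + y * I).re = t := fun t => by simp
  have hmem : ∀ t : ℝ, ((t : ℂ) + y * I) ∈ {w : ℂ | y - e < w.im ∧ w.im < y + e} := by
    intro t
    rw [Set.mem_ofPred_eq, him]
    constructor <;> linarith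
  have hline : Continuous (fun t : ℝ => (t : ℂ) + y * I) := by fun_prop
  have hder : ∀ t : ℝ, HasDerivAt (fun t : ℝ => χ ((t : ℂ) + y * I)) (deriv χ ((t : ℂ) + y * I)) t := by
    intro t
    have h1 : HasDerivAt χ (deriv χ ((t : ℂ) + y * I)) ((t : ℂ) + y * I) :=
      (h.nat.diff.differentiableAt (hU.mem_nhds (hmem t))).hasDerivAt
    exact (h1.comp_add_const (t : ℂ) (y * I)).comp_ofReal
  have hcd : Continuous (fun t : ℝ => deriv χ ((t : ℂ) + y * I)) :=
    (h.nat.diff.deriv hU).continuousOn.comp_continuous hline hmem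
  -- the left end
  have hL : ∀ t : ℝ, t < 0 → χ ((t : ℂ) + y * I) = hat ψ ((t : ℂ) + y * I) := by
    intro t ht
    have h1 := hmem t
    exact h.left _ h1.1 h1.2 (by rw [hre]; exact ht)
  have hLd : ∀ t : ℝ, t < 0 → deriv χ ((t : ℂ) + y * I) = deriv (hat ψ) ((t : ℂ) + y * I) := by
    intro t ht
    refine Filter.EventuallyEq.deriv_eq ?_
    have hV : IsOpen {w : ℂ | w.re < 0} := isOpen_lt Complex.continuous_re continuous_const
    filter_upwards [hU.mem_nhds (hmem t), hV.mem_nhds (show ((t : ℂ) + y * I).re < 0 by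
      rw [hre]; exact ht)] with w hw1 hw2
    exact h.left w hw1.1 hw1.2 hw2
  have hR : ∀ t : ℝ, S.re < t → χ ((t : ℂ) + y * I) = hat ψ' (S - ((t : ℂ) + y * I)) := by
    intro t ht
    have h1 := hmem t
    exact h.right _ h1.1 h1.2 (by rw [hre]; exact ht)
  have hRd : ∀ t : ℝ, S.re < t →
      deriv χ ((t : ℂ) + y * I) = -deriv (hat ψ') (S - ((t : ℂ) + y * I)) := by
    intro t ht
    have hV : IsOpen {w : ℂ | S.re < w.re} := isOpen_lt continuous_const Complex.continuous_re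
    have h1 : χ =ᶠ[𝓝 ((t : ℂ) + y * I)] fun w => hat ψ' (S - w) := by
      filter_upwards [hU.mem_nhds (hmem t), hV.mem_nhds (show S.re < ((t : ℂ) + y * I).re by
        rw [hre]; exact ht)] with w hw1 hw2
      exact h.right w hw1.1 hw1.2 hw2
    rw [h1.deriv_eq, deriv_comp_const_sub]
  obtain ⟨C, M, hM, hC⟩ := DLOC_bd k b g i ψ hψ
  obtain ⟨C', M', hM', hC'⟩ := DLOC_bd k b g l ψ' hψ'
  refine ⟨hder, ?_, ?_, ?_⟩
  · refine LocallyIntegrable.integrable_of_isBigO_atBot_atTop (g := fun t => Real.exp t)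
      (g' := fun t => Real.exp (-t)) hcd.locallyIntegrable ?_ ?_ ?_ ?_
    · refine Asymptotics.IsBigO.of_bound C ?_
      filter_upwards [eventually_lt_atBot M] with t ht
      rw [hLd t (ht.trans hM), Real.norm_eq_abs, Real.abs_exp]
      have := hC ((t : ℂ) + y * I) (by rw [hre]; exact ht)
      rwa [hre] at this
    · exact ⟨Iic 0, Iic_mem_atBot 0, integrableOn_exp_Iic 0⟩
    · refine Asymptotics.IsBigO.of_bound (C' * Real.exp S.re) ?_
      filter_upwards [eventually_gt_atTop (S.re - M')] with t ht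
      have h0 : S.re < t := by linarith
      rw [hRd t h0, Real.norm_eq_abs, Real.abs_exp, norm_neg]
      have h1 : (S - ((t : ℂ) + y * I)).re = S.re - t := by rw [Complex.sub_re, hre]
      have := hC' (S - ((t : ℂ) + y * I)) (by rw [h1]; linarith)
      rwa [h1, sub_eq_add_neg S.re t, Real.exp_add, ← mul_assoc] at this
    · exact ⟨Ioi 0, Ioi_mem_atTop 0, integrableOn_exp_neg_Ioi 0⟩
  · have h1 : Tendsto (fun t : ℝ => ((t : ℂ) + y * I).re) atBot atBot := by
      simp only [hre]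
      exact tendsto_id
    refine (DLOC_lim k b g i ψ hψ atBot _ h1).congr' ?_
    filter_upwards [eventually_lt_atBot (0 : ℝ)] with t ht
    exact (hL t ht).symm
  · have h1 : Tendsto (fun t : ℝ => (S - ((t : ℂ) + y * I)).re) atTop atBot := by
      simp only [Complex.sub_re, hre]
      exact tendsto_atBot_add_const_left _ _ tendsto_neg_atTop_atBot
    refine (DLOC_lim k b g l ψ' hψ' atTop _ h1).congr' ?_
    filter_upwards [eventually_gt_atTop S.re] with t ht
    exact (hR t ht).symm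

theorem DLOC : DLOC_stmt := by
  intro k _ b g ψ hF i l S₁ S₂ y₁ y₂ e χ₁ χ₂ hil he h1 h2
  obtain ⟨d1, i1, a1, c1⟩ := DLOC_traj k b g i l (ψ i) (ψ l) S₁ y₁ e χ₁ (hF.mx i).pn (hF.mx l).pn
    he h1
  obtain ⟨d2, i2, a2, c2⟩ := DLOC_traj k b g i l (ψ i) (ψ l) S₂ y₂ e χ₂ (hF.mx i).pn (hF.mx l).pn
    he h2
  constructor
  · intro A hA hbi hbl hA1 hA2 p hp p' hp'
    have : PreconnectedSpace A := isPreconnected_iff_preconnectedSpace.mp hA
    have hloc : IsLocallyConstant (fun x : A => Nn χ₁ y₁ x - Nn χ₂ y₂ x) := by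
      rw [IsLocallyConstant.iff_eventually_eq]
      intro x
      have hx1 := DLOC_loc _ _ _ _ (x : ℂ) d1 i1 a1 c1 (fun h => hbi (h ▸ x.2))
        (fun h => hbl (h ▸ x.2)) (fun t h => hA1 t (h ▸ x.2))
      have hx2 := DLOC_loc _ _ _ _ (x : ℂ) d2 i2 a2 c2 (fun h => hbi (h ▸ x.2))
        (fun h => hbl (h ▸ x.2)) (fun t h => hA2 t (h ▸ x.2))
      have hx : ∀ᶠ z in 𝓝 (x : ℂ), Nn χ₁ y₁ z - Nn χ₂ y₂ z = Nn χ₁ y₁ x - Nn χ₂ y₂ x := by
        filter_upwards [hx1, hx2] with z hz1 hz2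
        unfold Nn
        linear_combination hz2 - hz1
      exact continuous_subtype_val.continuousAt.eventually hx
    exact hloc.apply_eq_of_preconnectedSpace ⟨p, hp⟩ ⟨p', hp'⟩
  · intro p hpi hpl hp
    have hx := DLOC_loc _ _ _ _ p d2 i2 a2 c2 hpi hpl hp
    have h3 : ∀ᶠ z in 𝓝 p, Nn χ₂ y₂ z = Nn χ₂ y₂ p -
        (Complex.log ((b l - p) / (b l - z)) - Complex.log ((b i - p) / (b i - z))) := by
      filter_upwards [hx] with z hz
      unfold Nn
      linear_combination -hz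
    have h4 : ∀ a : ℂ, p ≠ a → ContinuousAt (fun z => Complex.log ((a - p) / (a - z))) p := by
      intro a ha
      have hne : a - p ≠ 0 := sub_ne_zero.mpr ha.symm
      refine ContinuousAt.clog (ContinuousAt.div continuousAt_const
        (continuousAt_const.sub continuousAt_id) hne) ?_
      rw [div_self hne]
      exact Complex.one_mem_slitPlane
    have h5 : ContinuousAt (fun z => Nn χ₂ y₂ p -
        (Complex.log ((b l - p) / (b l - z)) - Complex.log ((b i - p) / (b i - z)))) p :=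
      continuousAt_const.sub ((h4 _ hpl).sub (h4 _ hpi))
    exact h5.congr (EventuallyEq.symm h3)

end MQ
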